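import Pool.Agent.Lib.MP_fa837f_gt.P2.Iface

/-!
MP_fa837f_gt, project P2, module FB: Bochner's identity for compactly supported vector fields.
-/

set_option autoImplicit false

open MeasureTheory Matrix Set Filter Topology

namespace Pool.Agent.Lib.MP_fa837f_gt.P2.H22

variable {ι : Type} [Fintype ι] [DecidableEq ι]

theorem pd_contDiff {f : (ι → ℝ) → ℝ} (hf : ContDiff ℝ (⊤ : ℕ∞) f) (p : ι) :
    ContDiff ℝ (⊤ : ℕ∞) (pd p f) := by
  unfold pd
  have h1 : ContDiff ℝ (⊤ : ℕ∞) (fderiv ℝ f) :=
    hf.fderiv_right (m := (⊤ : ℕ∞)) (by exact_mod_cast le_top)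
  exact h1.clm_apply contDiff_const

theorem pd_mul {f g : (ι → ℝ) → ℝ} (hf : Differentiable ℝ f) (hg : Differentiable ℝ g) (p : ι)
    (y : ι → ℝ) : pd p (fun z => f z * g z) y = pd p f y * g y + f y * pd p g y := by
  unfold pd
  rw [fderiv_fun_mul (hf y) (hg y)]
  simp only [_root_.add_apply, _root_.smul_apply, smul_eq_mul]
  ring

theorem pd_add {f g : (ι → ℝ) → ℝ} (hf : Differentiable ℝ f) (hg : Differentiable ℝ g) (p : ι)
    (y : ι → ℝ) : pd p (fun z => f z + g z) y = pd p f y + pd p g y := by
  unfold pd
  rw [fderiv_fun_add (hf y) (hg y)]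
  rfl

theorem pd_sum {κ : Type} (s : Finset κ) {f : κ → (ι → ℝ) → ℝ} (hf : ∀ i, Differentiable ℝ (f i))
    (p : ι) (y : ι → ℝ) : pd p (fun z => ∑ i ∈ s, f i z) y = ∑ i ∈ s, pd p (f i) y := by
  unfold pd
  rw [fderiv_fun_sum (fun i _ => hf i y)]
  simp

theorem pd_exp {w : (ι → ℝ) → ℝ} (hw : Differentiable ℝ w) (p : ι) (y : ι → ℝ) :
    pd p (fun z => Real.exp (w z)) y = Real.exp (w y) * pd p w y := by
  unfold pd
  rw [fderiv_exp (hw y)]
  simp

theorem pd_comm {f : (ι → ℝ) → ℝ} (hf : ContDiff ℝ (⊤ : ℕ∞) f) (p q : ι) (y : ι → ℝ) :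
    pd p (pd q f) y = pd q (pd p f) y := by
  have hd : Differentiable ℝ (fderiv ℝ f) := by
    have h1 : ContDiff ℝ (⊤ : ℕ∞) (fderiv ℝ f) :=
      hf.fderiv_right (m := (⊤ : ℕ∞)) (by exact_mod_cast le_top)
    exact h1.differentiable (by simp)
  have key : ∀ a b : ι, pd a (pd b f) y =
      fderiv ℝ (fderiv ℝ f) y (Pi.single a 1) (Pi.single b 1) := by
    intro a b
    have : (pd b f) = fun z => (fderiv ℝ f z) (Pi.single b 1) := rfl
    rw [this]
    unfold pd
    rw [fderiv_clm_apply (hd y) (differentiableAt_const _)]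
    simp
  rw [key, key]
  have hs : IsSymmSndFDerivAt ℝ f y := by
    apply ContDiffAt.isSymmSndFDerivAt (n := (⊤ : ℕ∞)) hf.contDiffAt
    rw [minSmoothness_of_isRCLikeNormedField]
    exact WithTop.coe_le_coe.mpr le_top
  exact hs.eq _ _

theorem integral_pd {F : (ι → ℝ) → ℝ} (hF : ContDiff ℝ (⊤ : ℕ∞) F) (hc : HasCompactSupport F)
    (q : ι) : ∫ y, pd q F y = 0 := by
  have hcs : HasCompactSupport (fun y => fderiv ℝ F y (Pi.single q 1)) :=
    hc.fderiv_apply (𝕜 := ℝ) _
  have hcont : Continuous (fun y => fderiv ℝ F y (Pi.single q 1)) := (pd_contDiff hF q).continuous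
  have h := integral_mul_fderiv_eq_neg_fderiv_mul_of_integrable (𝕜 := ℝ) (μ := volume)
    (f := fun _ : ι → ℝ => (1 : ℝ)) (g := F) (v := Pi.single q 1)
    (by simp)
    (by simpa using hcont.integrable_of_hasCompactSupport hcs)
    (by simpa using hF.continuous.integrable_of_hasCompactSupport hc)
    (fun x _ => differentiableAt_const _)
    (fun x _ => hF.differentiable (by simp) x)
  simpa [pd] using h

theorem fb_st : FbStatement := by
  intro ι _ _ w h hw hh
  have hdw : Differentiable ℝ w := hw.differentiable (by simp)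
  have hs : ∀ p, ContDiff ℝ (⊤ : ℕ∞) fun y => h y p := fun p => (hh p).1
  have hdh : ∀ p, Differentiable ℝ fun y => h y p := fun p => (hs p).differentiable (by simp)
  have hcs : ∀ p, HasCompactSupport fun y => h y p := fun p => (hh p).2
  have he : ContDiff ℝ (⊤ : ℕ∞) fun y => Real.exp (w y) := hw.exp
  have hde : Differentiable ℝ fun y => Real.exp (w y) := he.differentiable (by simp)
  -- the divergence
  set d : (ι → ℝ) → ℝ := fun y => ∑ p, (pd p (fun z => h z p) y + h y p * pd p w y) with hd
  have hterm : ∀ p, ContDiff ℝ (⊤ : ℕ∞)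
      fun y => pd p (fun z => h z p) y + h y p * pd p w y := fun p =>
    (pd_contDiff (hs p) p).add ((hs p).mul (pd_contDiff hw p))
  have hds : ContDiff ℝ (⊤ : ℕ∞) d := ContDiff.sum fun p _ => hterm p
  have hdd : Differentiable ℝ d := hds.differentiable (by simp)
  have hq : ∀ (q : ι) y, pd q (fun z => Real.exp (w z) * h z q) y =
      Real.exp (w y) * (pd q (fun z => h z q) y + h y q * pd q w y) := by
    intro q y
    rw [pd_mul hde (hdh q), pd_exp hdw]
    ring
  have hd1 : ∀ y, (∑ p, pd p (fun z => Real.exp (w z) * h z p) y) / Real.exp (w y) = d y := by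
    intro y
    simp only [hq]
    rw [← Finset.mul_sum, mul_div_assoc, hd]
    field_simp
  simp only [hd1]
  -- the derivative of `d`
  have hdq : ∀ (q : ι) y, pd q d y = ∑ p, (pd q (pd p (fun z => h z p)) y +
      (pd q (fun z => h z p) y * pd p w y + h y p * pd q (pd p w) y)) := by
    intro q y
    rw [hd, pd_sum _ (fun p => (hterm p).differentiable (by simp))]
    apply Finset.sum_congr rfl
    intro p _
    rw [pd_add ((pd_contDiff (hs p) p).differentiable (by simp))
      (((hs p).mul (pd_contDiff hw p)).differentiable (by simp)),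
      pd_mul (hdh p) ((pd_contDiff hw p).differentiable (by simp))]
  -- the two fields
  let U : ι → (ι → ℝ) → ℝ := fun q y => d y * (Real.exp (w y) * h y q)
  let V : ι → (ι → ℝ) → ℝ := fun p y => ∑ q, (pd q (fun z => h z p) y) * (Real.exp (w y) * h y q)
  have hU : ∀ q, ContDiff ℝ (⊤ : ℕ∞) (U q) := fun q => hds.mul (he.mul (hs q))
  have hV : ∀ p, ContDiff ℝ (⊤ : ℕ∞) (V p) := fun p =>
    ContDiff.sum fun q _ => (pd_contDiff (hs p) q).mul (he.mul (hs q))
  have hUc : ∀ q, HasCompactSupport (U q) := by
    intro q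
    have := ((hcs q).mul_left (f := fun y => Real.exp (w y))).mul_left (f := d)
    exact this
  have hVc : ∀ p, HasCompactSupport (V p) := by
    intro p
    have : HasCompactSupport (fun y => h y p) := hcs p
    have hc1 : ∀ q, HasCompactSupport (fun y => pd q (fun z => h z p) y) := fun q =>
      (hcs p).fderiv_apply (𝕜 := ℝ) _
    have hc2 : ∀ q, HasCompactSupport
        (fun y => (pd q (fun z => h z p) y) * (Real.exp (w y) * h y q)) := fun q =>
      (hc1 q).mul_right
    have hsum : ∀ s : Finset ι, HasCompactSupport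
        (fun y => ∑ q ∈ s, (pd q (fun z => h z p) y) * (Real.exp (w y) * h y q)) := by
      classical
      intro s
      induction s using Finset.induction_on with
      | empty =>
        simp only [Finset.sum_empty]
        exact HasCompactSupport.zero
      | insert a s ha ih =>
        simp only [Finset.sum_insert ha]
        exact (hc2 a).add ih
    exact hsum Finset.univ
  have i1 : ∀ q, Integrable (fun y => pd q (U q) y) := fun q =>
    (pd_contDiff (hU q) q).continuous.integrable_of_hasCompactSupport
      ((hUc q).fderiv_apply (𝕜 := ℝ) _)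
  have i2 : ∀ q, Integrable (fun y => pd q (V q) y) := fun q =>
    (pd_contDiff (hV q) q).continuous.integrable_of_hasCompactSupport
      ((hVc q).fderiv_apply (𝕜 := ℝ) _)
  have z1 : ∫ y, ∑ q, pd q (U q) y = 0 := by
    rw [integral_finsetSum _ (fun q _ => i1 q)]
    exact Finset.sum_eq_zero fun q _ => integral_pd (hU q) (hUc q) q
  have z2 : ∫ y, ∑ q, pd q (V q) y = 0 := by
    rw [integral_finsetSum _ (fun q _ => i2 q)]
    exact Finset.sum_eq_zero fun q _ => integral_pd (hV q) (hVc q) q
  -- pointwise identity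
  have eU : ∀ y, ∑ q, pd q (U q) y = d y ^ 2 * Real.exp (w y) +
      ∑ q, pd q d y * (Real.exp (w y) * h y q) := by
    intro y
    have : ∀ q, pd q (U q) y = pd q d y * (Real.exp (w y) * h y q) +
        d y * (Real.exp (w y) * (pd q (fun z => h z q) y + h y q * pd q w y)) := by
      intro q
      show pd q (fun z => d z * (Real.exp (w z) * h z q)) y = _
      rw [pd_mul hdd ((he.mul (hs q)).differentiable (by simp)), hq]
    simp only [this]
    rw [Finset.sum_add_distrib, ← Finset.mul_sum, ← Finset.mul_sum, add_comm]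
    congr 1
    rw [hd]
    ring
  have eV : ∀ y, ∑ p, pd p (V p) y = (∑ p, ∑ q, pd p (pd q (fun z => h z p)) y *
      (Real.exp (w y) * h y q)) + ∑ p, ∑ q, pd q (fun z => h z p) y *
        (Real.exp (w y) * (pd p (fun z => h z q) y + h y q * pd p w y)) := by
    intro y
    rw [← Finset.sum_add_distrib]
    apply Finset.sum_congr rfl
    intro p _
    show pd p (fun z => ∑ q, (pd q (fun z => h z p) z) * (Real.exp (w z) * h z q)) y = _
    rw [pd_sum _ (fun q => ((pd_contDiff (hs p) q).mul (he.mul (hs q))).differentiable (by simp)),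
      ← Finset.sum_add_distrib]
    apply Finset.sum_congr rfl
    intro q _
    rw [pd_mul ((pd_contDiff (hs p) q).differentiable (by simp))
      ((he.mul (hs q)).differentiable (by simp)), pd_mul hde (hdh q), pd_exp hdw]
    ring
  have key : ∀ y, d y ^ 2 * Real.exp (w y) -
      ((∑ p, ∑ q, pd p (fun z => h z q) y * pd q (fun z => h z p) y) -
        ∑ p, ∑ q, h y p * h y q * pd p (fun z => pd q w z) y) * Real.exp (w y) =
      (∑ q, pd q (U q) y) - ∑ q, pd q (V q) y := by
    intro y
    rw [eU, eV]
    simp only [hdq]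
    have a1 : ∑ q, (∑ p, (pd q (pd p (fun z => h z p)) y +
        (pd q (fun z => h z p) y * pd p w y + h y p * pd q (pd p w) y))) *
          (Real.exp (w y) * h y q) =
        (∑ p, ∑ q, pd p (pd q (fun z => h z p)) y * (Real.exp (w y) * h y q)) +
        (∑ p, ∑ q, pd q (fun z => h z p) y * (Real.exp (w y) * (h y q * pd p w y))) +
        ∑ p, ∑ q, h y p * h y q * pd p (pd q w) y * Real.exp (w y) := by
      rw [Finset.sum_comm (f := fun p q => pd p (pd q (fun z => h z p)) y *
        (Real.exp (w y) * h y q)), Finset.sum_comm (f := fun p q => pd q (fun z => h z p) y *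
        (Real.exp (w y) * (h y q * pd p w y))), ← Finset.sum_add_distrib,
        ← Finset.sum_add_distrib]
      apply Finset.sum_congr rfl
      intro q _
      rw [Finset.sum_mul, ← Finset.sum_add_distrib, ← Finset.sum_add_distrib]
      apply Finset.sum_congr rfl
      intro p _
      rw [pd_comm (hs p) q p]
      ring
    have a2 : ∑ p, ∑ q, pd q (fun z => h z p) y *
        (Real.exp (w y) * (pd p (fun z => h z q) y + h y q * pd p w y)) =
        (∑ p, ∑ q, pd p (fun z => h z q) y * pd q (fun z => h z p) y) * Real.exp (w y) +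
        ∑ p, ∑ q, pd q (fun z => h z p) y * (Real.exp (w y) * (h y q * pd p w y)) := by
      rw [Finset.sum_mul, ← Finset.sum_add_distrib]
      apply Finset.sum_congr rfl
      intro p _
      rw [Finset.sum_mul, ← Finset.sum_add_distrib]
      apply Finset.sum_congr rfl
      intro q _
      ring
    have a3 : (∑ p, ∑ q, h y p * h y q * pd p (fun z => pd q w z) y) * Real.exp (w y) =
        ∑ p, ∑ q, h y p * h y q * pd p (pd q w) y * Real.exp (w y) := by
      rw [Finset.sum_mul]
      apply Finset.sum_congr rfl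
      intro p _
      rw [Finset.sum_mul]
    rw [a1, a2, sub_mul, a3]
    ring
  -- integrability of the two sides
  have iL : Integrable fun y => d y ^ 2 * Real.exp (w y) := by
    have hcd : HasCompactSupport d := by
      have hc1 : ∀ p, HasCompactSupport
          (fun y => pd p (fun z => h z p) y + h y p * pd p w y) := fun p =>
        ((hcs p).fderiv_apply (𝕜 := ℝ) _).add (hcs p).mul_right
      have hsum : ∀ s : Finset ι, HasCompactSupport
          (fun y => ∑ p ∈ s, (pd p (fun z => h z p) y + h y p * pd p w y)) := by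
        classical
        intro s
        induction s using Finset.induction_on with
        | empty =>
        simp only [Finset.sum_empty]
        exact HasCompactSupport.zero
        | insert a s ha ih =>
          simp only [Finset.sum_insert ha]
          exact (hc1 a).add ih
      exact hsum Finset.univ
    apply Continuous.integrable_of_hasCompactSupport
    · exact (hds.continuous.pow 2).mul he.continuous
    · have : HasCompactSupport (fun y => d y * (d y * Real.exp (w y))) := hcd.mul_right
      have e : (fun y => d y ^ 2 * Real.exp (w y)) = fun y => d y * (d y * Real.exp (w y)) := by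
        funext y; ring
      rw [e]; exact this
  have iD : Integrable fun y => (∑ q, pd q (U q) y) - ∑ q, pd q (V q) y :=
    (integrable_finsetSum _ fun q _ => i1 q).sub (integrable_finsetSum _ fun q _ => i2 q)
  have zD : ∫ y, ((∑ q, pd q (U q) y) - ∑ q, pd q (V q) y) = 0 := by
    rw [integral_sub (integrable_finsetSum _ fun q _ => i1 q)
      (integrable_finsetSum _ fun q _ => i2 q), z1, z2, sub_zero]
  have fin : ∀ y, ((∑ p, ∑ q, pd p (fun z => h z q) y * pd q (fun z => h z p) y) -
        ∑ p, ∑ q, h y p * h y q * pd p (fun z => pd q w z) y) * Real.exp (w y) =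
      d y ^ 2 * Real.exp (w y) - ((∑ q, pd q (U q) y) - ∑ q, pd q (V q) y) := by
    intro y
    rw [← key y]; ring
  simp only [fin]
  rw [integral_sub iL iD, zD, sub_zero]

end Pool.Agent.Lib.MP_fa837f_gt.P2.H22
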